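import Pool.Agent.H535R3.KC

set_option autoImplicit false
open Set Filter Topology

namespace V203PL

open H535R3

/-- at `b = 0` there is locking with number `0` -/
theorem zero_lock (a ε : ℝ) : ((0 : ℝ), a) ∈ Ls 0 ε := by
  obtain ⟨y, hy⟩ := zero_b a ε
  set φ := fl 0 a ε y with hφd
  have hφ : Sol 0 a ε φ := fl_sol 0 a ε y
  have hψ : Sol 0 a ε (fun t => -(φ (t + Real.pi))) := by
    intro t
    have h1 := ((hφ (t + Real.pi)).comp_add_const t Real.pi).neg
    refine h1.congr_deriv ?_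
    simp only [Real.sin_neg, Real.cos_add_pi]; ring
  have h3 := congrFun hψ.eq_fl (2 * Real.pi)
  simp only [zero_add] at h3
  have h4 : φ (2 * Real.pi + Real.pi) ≤ φ Real.pi := by
    rw [hφd, add_comm (2 * Real.pi) Real.pi, fl_shift]
    rcases hy.lt_or_eq with h | h
    · exact (fl_mono 0 a ε h Real.pi).le
    · rw [h]
  have h5 : -(φ Real.pi) ≤ P 0 a ε (-(φ Real.pi)) := by
    rw [P, ← h3]
    linarith
  have hc : Continuous fun x : ℝ => P 0 a ε x - x :=
    (continuous_P.comp (f := fun x : ℝ => ((0:ℝ), a, ε, x)) (by fun_prop)).sub continuous_id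
  obtain ⟨x, hx⟩ := mem_range_of_exists_le_of_exists_ge hc (c := 0)
    ⟨y, by linarith⟩ ⟨-(φ Real.pi), by linarith⟩
  refine ⟨x, ?_⟩
  simp only at hx ⊢
  push_cast
  linarith

/-- A singleton slice lies on the axis. -/
theorem single_axis {r : ℤ} {ε b a : ℝ} (hε : 0 < ε) (ha : 0 < a) (h : (b, a) ∈ Ls r ε)
    (hu : ∀ b', (b', a) ∈ Ls r ε → b' = b) : b = r := by
  rcases lt_trichotomy r 0 with hr | hr | hr
  · obtain ⟨n, hn⟩ : ∃ n : ℕ, -r = n := ⟨(-r).toNat, by omega⟩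
    have hn1 : 1 ≤ n := by omega
    have h1 := Ls_neg h
    have hu1 := single_neg hu
    rw [hn] at h1 hu1
    have h2 := ident_axis hn1 hε ha (fun x => by
      have := single_ident h1 hu1 x
      push_cast at this
      exact this)
    have h3 : (r : ℝ) = -(n : ℝ) := by
      have : r = -(n : ℤ) := by omega
      rw [this]; push_cast; ring
    rw [h3]
    linarith
  · subst hr
    have h1 := Ls_neg h
    rw [neg_zero] at h1
    have := hu _ h1
    push_cast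
    linarith
  · obtain ⟨n, rfl⟩ : ∃ n : ℕ, r = n := ⟨r.toNat, by omega⟩
    have hn1 : 1 ≤ n := by omega
    have h2 := ident_axis hn1 hε ha (fun x => by
      have := single_ident h hu x
      push_cast at this
      exact this)
    rw [h2]
    push_cast
    ring

/-- Above a point of the axis the axis stays in the locked area. -/
theorem axis_above {r : ℤ} {ε a a' : ℝ} (hε : 0 < ε) (ha : 0 ≤ a) (haa : a ≤ a')
    (h : ((r : ℝ), a) ∈ Ls r ε) : ((r : ℝ), a') ∈ Ls r ε := by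
  have key : ∀ n : ℕ, (((n : ℝ) + 1, a) : ℝ × ℝ) ∈ Ls ((n:ℤ) + 1) ε →
      (((n : ℝ) + 1, a') : ℝ × ℝ) ∈ Ls ((n:ℤ) + 1) ε := fun n h =>
    (axis_iff n (ha.trans haa) hε).2 (((axis_iff n ha hε).1 h).trans haa)
  rcases lt_trichotomy r 0 with hr | hr | hr
  · obtain ⟨n, rfl⟩ : ∃ n : ℕ, r = -((n : ℤ) + 1) := ⟨(-r - 1).toNat, by omega⟩
    have e1 : ((-((n : ℤ) + 1) : ℤ) : ℝ) = -((n : ℝ) + 1) := by push_cast; ring
    have h1 := Ls_neg h
    rw [e1, neg_neg, neg_neg] at h1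
    have h2 := Ls_neg (key n h1)
    rwa [e1]
  · subst hr
    push_cast
    exact zero_lock a' ε
  · obtain ⟨n, rfl⟩ : ∃ n : ℕ, r = (n : ℤ) + 1 := ⟨(r - 1).toNat, by omega⟩
    have e1 : (((n : ℤ) + 1 : ℤ) : ℝ) = (n : ℝ) + 1 := by push_cast; ring
    rw [e1] at h ⊢
    exact key n h

/-- The locked area in the form with one solution and `f t / (ω t)`. -/
theorem mem_area {ω : ℝ} (hω : 0 < ω) (r : ℤ) (B A : ℝ) :
    (∃ f : ℝ → ℝ, (∀ t : ℝ, HasDerivAt f (-Real.sin (f t) + B + A * Real.cos (ω * t)) t) ∧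
      Tendsto (fun t : ℝ => f t / (ω * t)) atTop (𝓝 (r : ℝ))) ↔ (B / ω, A / ω) ∈ Ls r (1 / ω) := by
  have h1 : (B, A) ∈ {p : ℝ × ℝ | ∃ φ : ℝ → ℝ,
      (∀ t : ℝ, HasDerivAt φ (-Real.sin (φ t) + p.1 + p.2 * Real.cos (ω * t)) t) ∧
      Tendsto (fun t : ℝ => φ t / (ω * t)) atTop (𝓝 (r : ℝ))} ↔ (B, A) ∈ LL ω r := by
    rw [LL_exists hω r]
  rw [← mem_LL hω, ← h1, mem_ofPred_eq]

end V203PL
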